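import Mathlib

set_option autoImplicit false

namespace Pool.Agent.H850Z.TB

variable {V : Type} [Fintype V] [DecidableEq V]

/-- Transition probability of the pair (position, set of visited vertices) of the
`ε`-time-biased walk whose controller, at position `u` with visited set `S`, picks `f u S`. -/
noncomputable def step (G : SimpleGraph V) [DecidableRel G.Adj] (ε : ℝ) (f : V → Finset V → V)
    (r q : V × Finset V) : ENNReal :=
  if G.Adj r.1 q.1 ∧ q.2 = insert q.1 r.2 then
    ENNReal.ofReal ((1 - ε) / (G.degree r.1 : ℝ) + (if q.1 = f r.1 r.2 then ε else 0))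
  else 0

/-- Law at time `t` of (position, set of visited vertices) for the walk started at `v₀`. -/
noncomputable def law (G : SimpleGraph V) [DecidableRel G.Adj] (ε : ℝ) (f : V → Finset V → V)
    (v₀ : V) : ℕ → V × Finset V → ENNReal
  | 0 => fun q => if q = (v₀, ({v₀} : Finset V)) then 1 else 0
  | t + 1 => fun q => ∑ r : V × Finset V, law G ε f v₀ t r * step G ε f r q

/-- Expected cover time, as the sum over `t` of the probability that some vertex is still
unvisited at time `t`. -/
noncomputable def coverTime (G : SimpleGraph V) [DecidableRel G.Adj] (ε : ℝ)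
    (f : V → Finset V → V) (v₀ : V) : ENNReal :=
  ∑' t : ℕ, ∑ p : V × Finset V, if p.2 = Finset.univ then 0 else law G ε f v₀ t p

end Pool.Agent.H850Z.TB
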