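import Mathlib

set_option autoImplicit false
set_option linter.unusedSectionVars false

namespace Pool.Agent.H850Z.TB

open Finset

variable {V : Type} [Fintype V] [DecidableEq V] {G : SimpleGraph V} [DecidableRel G.Adj]

theorem dist_adj (hG : G.Connected) (u : V) {a b : V} (h : G.Adj a b) :
    G.dist u a ≤ G.dist u b + 1 := by
  have h1 := hG.dist_triangle (u := u) (v := b) (w := a)
  have h2 : G.dist b a = 1 := SimpleGraph.dist_eq_one_iff_adj.mpr h.symm
  omega

theorem exists_pred (hG : G.Connected) {u x : V} (h : x ≠ u) :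
    ∃ b, G.Adj x b ∧ G.dist u b + 1 = G.dist u x := by
  obtain ⟨p, hp⟩ := hG.exists_walk_length_eq_dist x u
  cases p with
  | nil => exact absurd rfl h
  | @cons _ b _ hab q =>
    refine ⟨b, hab, ?_⟩
    have h1 := SimpleGraph.dist_le q
    have h2 := dist_adj hG u hab
    rw [SimpleGraph.dist_comm] at h1
    rw [SimpleGraph.dist_comm] at hp
    simp only [SimpleGraph.Walk.length_cons] at hp
    omega

variable (G) in
noncomputable def Ysh (δ : V → ℕ) (u x : V) : ℤ := (δ u : ℤ) - (G.dist u x : ℤ)

variable (G) in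
noncomputable def Msh (δ : V → ℕ) (x : V) : ℤ := univ.sup' ⟨x, mem_univ x⟩ (fun u => Ysh G δ u x)

theorem Y_le_M (δ : V → ℕ) (u x : V) : Ysh G δ u x ≤ Msh G δ x :=
  le_sup' (fun u => Ysh G δ u x) (mem_univ u)

theorem exists_M (δ : V → ℕ) (x : V) : ∃ u, Msh G δ x = Ysh G δ u x := by
  obtain ⟨u, _, hu⟩ := exists_mem_eq_sup' ⟨x, mem_univ x⟩ (fun u => Ysh G δ u x)
  exact ⟨u, hu⟩

variable (G) in
noncomputable def Pot (lam : ℝ) (δ : V → ℕ) : ℝ := ∑ u, lam ^ δ u - ∑ x, (Msh G δ x : ℝ)

theorem exists_min (lam : ℝ) (hl : 1 < lam) :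
    ∃ δ : V → ℕ, ∀ δ' : V → ℕ, Pot G lam δ ≤ Pot G lam δ' := by
  set n : ℝ := (Fintype.card V : ℝ) with hn
  have hn0 : 0 ≤ n := Nat.cast_nonneg _
  have ht := tendsto_pow_const_div_const_pow_of_one_lt 1 hl
  have hev := ht.eventually (gt_mem_nhds (show (0 : ℝ) < 1 / (2 * n + 1) by positivity))
  obtain ⟨B, hB⟩ := Filter.eventually_atTop.mp hev
  obtain ⟨δ, _, hδ⟩ := exists_min_image (Fintype.piFinset fun _ : V => range (B + 1)) (Pot G lam)
    ⟨fun _ => 0, by simp⟩
  refine ⟨δ, fun δ' => ?_⟩
  by_cases h : ∀ u, δ' u < B + 1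
  · exact hδ δ' (by simpa using h)
  · push Not at h
    obtain ⟨u₀, hu₀⟩ := h
    obtain ⟨u, _, hu⟩ := exists_max_image univ δ' ⟨u₀, mem_univ _⟩
    have hm : B + 1 ≤ δ' u := hu₀.trans (hu u₀ (mem_univ _))
    have h0 := hδ (fun _ => 0) (by simp)
    have h1 : Pot G lam (fun _ => 0) ≤ n := by
      unfold Pot
      have : 0 ≤ ∑ x, (Msh G (fun _ => 0) x : ℝ) := sum_nonneg fun x _ => by
        have := Y_le_M (G := G) (fun _ => 0) x x
        simp only [Ysh, SimpleGraph.dist_self] at this
        exact_mod_cast this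
      simp only [pow_zero, sum_const, card_univ, nsmul_eq_mul, mul_one]
      linarith
    have h2 : lam ^ δ' u - n * δ' u ≤ Pot G lam δ' := by
      unfold Pot
      have a1 : lam ^ δ' u ≤ ∑ v, lam ^ δ' v :=
        single_le_sum (f := fun v => lam ^ δ' v) (fun v _ => by positivity) (mem_univ u)
      have a2 : ∑ x, (Msh G δ' x : ℝ) ≤ n * δ' u := by
        calc ∑ x, (Msh G δ' x : ℝ) ≤ ∑ _x : V, (δ' u : ℝ) := sum_le_sum fun x _ => by
              obtain ⟨v, hv⟩ := exists_M (G := G) δ' x
              have := hu v (mem_univ _)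
              have h3 : Msh G δ' x ≤ (δ' u : ℤ) := by rw [hv, Ysh]; omega
              exact_mod_cast h3
          _ = n * δ' u := by simp [hn]
      linarith
    have h3 := hB (δ' u) (by omega)
    have hp : 0 < lam ^ δ' u := by positivity
    rw [pow_one, div_lt_div_iff₀ hp (by positivity)] at h3
    have h4 : (1 : ℝ) ≤ δ' u := by exact_mod_cast (by omega : 1 ≤ δ' u)
    nlinarith

theorem exists_shifts (hG : G.Connected) (lam θ : ℝ) (hl : 1 < lam) (hθ : 0 < θ)
    (hθl : θ * lam < 1) :
    ∃ (gap : V → V → ℕ) (δ : V → ℕ),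
      (∀ u a b, G.Adj a b → gap u a ≤ gap u b + 2) ∧ (∀ x, ∃ u, gap u x = 0) ∧
      (∀ u x, gap u x = 0 → x ≠ u → ∃ b, gap u b = 0 ∧ G.Adj x b ∧ G.dist u b < G.dist u x) ∧
      (∀ u x, gap u x = 0 → G.dist u x ≤ δ u) ∧
      (∀ u, ∑ x, θ ^ gap u x ≤ lam ^ (δ u + 1) / (1 - θ * lam)) ∧
      ∑ u, lam ^ δ u ≤ Fintype.card V * (1 + lam / (lam - 1)) := by
  classical
  obtain ⟨δ, hδ⟩ := exists_min (G := G) lam hl
  have hMl : ∀ a b, G.Adj a b → Msh G δ a ≤ Msh G δ b + 1 := by
    intro a b hab
    obtain ⟨u, hu⟩ := exists_M (G := G) δ a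
    have h1 := Y_le_M (G := G) δ u b
    have h2 := dist_adj hG u hab.symm
    rw [hu]
    simp only [Ysh] at h1 ⊢
    omega
  set gap : V → V → ℕ := fun u x => (Msh G δ x - Ysh G δ u x).toNat with hgap
  have hg : ∀ u x, (gap u x : ℤ) = Msh G δ x - Ysh G δ u x := fun u x => by
    have := Y_le_M (G := G) δ u x
    simp only [hgap]; omega
  have hlp : 0 < lam := by linarith
  have hupd : ∀ u (k : ℕ), ∑ v, lam ^ (Function.update δ u k v) =
      ∑ v, lam ^ δ v - lam ^ δ u + lam ^ k := by
    intro u k
    rw [← add_sum_erase univ _ (mem_univ u), ← add_sum_erase univ (fun v => lam ^ δ v) (mem_univ u)]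
    have : ∑ v ∈ univ.erase u, lam ^ (Function.update δ u k v) = ∑ v ∈ univ.erase u, lam ^ δ v :=
      sum_congr rfl fun v hv => by rw [Function.update_of_ne (ne_of_mem_erase hv)]
    rw [this, Function.update_self]; ring
  have hraise : ∀ u (j : ℕ), ((univ.filter fun x => gap u x = j).card : ℝ) ≤ lam ^ (δ u + 1 + j) := by
    intro u j
    have h1 := hδ (Function.update δ u (δ u + 1 + j))
    unfold Pot at h1
    rw [hupd] at h1
    have h2 : ∑ x, ((Msh G δ x : ℝ) + if gap u x = j then 1 else 0) ≤
        ∑ x, (Msh G (Function.update δ u (δ u + 1 + j)) x : ℝ) := by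
      refine sum_le_sum fun x _ => ?_
      split_ifs with hx
      · have a1 := Y_le_M (G := G) (Function.update δ u (δ u + 1 + j)) u x
        have a2 := hg u x
        simp only [Ysh, Function.update_self] at a1 a2
        have : Msh G δ x + 1 ≤ Msh G (Function.update δ u (δ u + 1 + j)) x := by
          push_cast at a1; omega
        exact_mod_cast this
      · obtain ⟨v, hv⟩ := exists_M (G := G) δ x
        have a1 := Y_le_M (G := G) (Function.update δ u (δ u + 1 + j)) v x
        have : Msh G δ x ≤ Msh G (Function.update δ u (δ u + 1 + j)) x := by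
          rw [hv]
          refine le_trans ?_ a1
          simp only [Ysh]
          by_cases hvu : v = u
          · subst hvu; simp only [Function.update_self]; push_cast; omega
          · rw [Function.update_of_ne hvu]
        rw [add_zero]; exact_mod_cast this
    rw [sum_add_distrib, sum_boole] at h2
    have : 0 < lam ^ δ u := by positivity
    linarith
  set st : V → Finset V := fun u => univ.filter fun x => ∀ v, v ≠ u → Ysh G δ v x < Ysh G δ u x
    with hst
  have hlower : ∀ u, lam ^ δ u ≤ 1 + lam / (lam - 1) * (st u).card := by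
    intro u
    have hq : 0 ≤ lam / (lam - 1) * (st u).card :=
      mul_nonneg (div_nonneg hlp.le (by linarith)) (Nat.cast_nonneg _)
    rcases Nat.eq_zero_or_pos (δ u) with h0 | h0
    · rw [h0]; simp only [pow_zero]; linarith
    obtain ⟨k, hk⟩ : ∃ k, δ u = k + 1 := ⟨δ u - 1, by omega⟩
    have h1 := hδ (Function.update δ u k)
    unfold Pot at h1
    rw [hupd] at h1
    have h2 : ∑ x, (Msh G δ x : ℝ) ≤
        ∑ x, ((Msh G (Function.update δ u k) x : ℝ) + if x ∈ st u then 1 else 0) := by
      refine sum_le_sum fun x _ => ?_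
      have a0 : ∀ v, v ≠ u → Ysh G δ v x ≤ Msh G (Function.update δ u k) x := by
        intro v hv
        refine le_trans ?_ (Y_le_M (G := G) (Function.update δ u k) v x)
        simp only [Ysh, Function.update_of_ne hv, le_refl]
      have a1 := Y_le_M (G := G) (Function.update δ u k) u x
      simp only [Ysh, Function.update_self] at a1
      obtain ⟨v, hv⟩ := exists_M (G := G) δ x
      split_ifs with hx
      · have : Msh G δ x ≤ Msh G (Function.update δ u k) x + 1 := by
          by_cases hvu : v = u
          · subst hvu; rw [hv]; simp only [Ysh]; omega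
          · have := a0 v hvu; omega
        exact_mod_cast this
      · have : Msh G δ x ≤ Msh G (Function.update δ u k) x := by
          by_cases hvu : v = u
          · subst hvu
            simp only [hst, mem_filter, mem_univ, true_and, not_forall, not_lt] at hx
            obtain ⟨w, hw, hw'⟩ := hx
            have := a0 w hw
            omega
          · have := a0 v hvu; omega
        rw [add_zero]; exact_mod_cast this
    rw [sum_add_distrib, sum_boole, filter_mem_eq_inter, univ_inter] at h2
    have h3 : lam ^ δ u - lam ^ k ≤ (st u).card := by linarith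
    rw [hk, pow_succ] at h3 ⊢
    have h4 : lam ^ k * lam = lam / (lam - 1) * (lam ^ k * lam - lam ^ k) := by
      have : lam - 1 ≠ 0 := by linarith
      field_simp
    have h5 : lam / (lam - 1) * (lam ^ k * lam - lam ^ k) ≤ lam / (lam - 1) * (st u).card :=
      mul_le_mul_of_nonneg_left h3 (div_nonneg hlp.le (by linarith))
    linarith
  refine ⟨gap, δ, ?_, ?_, ?_, ?_, ?_, ?_⟩
  · intro u a b hab
    have h1 := hg u a
    have h2 := hg u b
    have h3 := hMl a b hab
    have h4 := dist_adj hG u hab
    simp only [Ysh] at h1 h2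
    omega
  · intro x
    obtain ⟨u, hu⟩ := exists_M (G := G) δ x
    exact ⟨u, by have := hg u x; omega⟩
  · intro u x hx hxu
    obtain ⟨b, hab, hb⟩ := exists_pred hG hxu
    refine ⟨b, ?_, hab, by omega⟩
    have h1 := hg u x
    have h2 := hg u b
    have h3 := hMl b x hab.symm
    simp only [Ysh] at h1 h2
    omega
  · intro u x hx
    have h1 := hg u x
    have h2 := Y_le_M (G := G) δ x x
    simp only [Ysh, SimpleGraph.dist_self] at h1 h2
    omega
  · intro u
    set N := univ.sup (gap u) + 1 with hN
    have hmem : ∀ x ∈ (univ : Finset V), gap u x ∈ range N := fun x _ => by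
      have := le_sup (f := gap u) (mem_univ x)
      simp only [hN, mem_range]; omega
    rw [← sum_fiberwise_of_maps_to hmem]
    have h1 : ∀ j ∈ range N, ∑ x ∈ univ.filter (fun x => gap u x = j), θ ^ gap u x ≤
        lam ^ (δ u + 1) * (θ * lam) ^ j := by
      intro j _
      rw [sum_congr rfl (g := fun _ => θ ^ j) (fun x hx => by rw [(mem_filter.mp hx).2]),
        sum_const, nsmul_eq_mul]
      calc _ ≤ lam ^ (δ u + 1 + j) * θ ^ j := by gcongr; exact hraise u j
        _ = _ := by rw [pow_add, mul_pow]; ring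
    refine (sum_le_sum h1).trans ?_
    rw [← mul_sum, div_eq_mul_inv]
    gcongr
    have hq : 0 ≤ θ * lam := by positivity
    rw [← tsum_geometric_of_lt_one hq hθl]
    exact (summable_geometric_of_lt_one hq hθl).sum_le_tsum _ (fun j _ => by positivity)
  · have h1 : ∑ u, ((st u).card : ℝ) ≤ Fintype.card V := by
      have : ∑ u, (st u).card ≤ Fintype.card V := by
        rw [← card_biUnion]
        · exact card_le_univ _
        · intro a _ b _ hab
          refine disjoint_left.mpr fun x hxa hxb => ?_
          simp only [hst, mem_filter, mem_univ, true_and] at hxa hxb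
          have := hxa b (Ne.symm hab)
          have := hxb a hab
          omega
      exact_mod_cast this
    calc ∑ u, lam ^ δ u ≤ ∑ u, (1 + lam / (lam - 1) * (st u).card) := sum_le_sum fun u _ => hlower u
      _ = Fintype.card V + lam / (lam - 1) * ∑ u, ((st u).card : ℝ) := by
          rw [sum_add_distrib, mul_sum]; simp
      _ ≤ Fintype.card V + lam / (lam - 1) * Fintype.card V := by
          gcongr
      _ = _ := by ring

end Pool.Agent.H850Z.TB
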