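import Pool.Agent.H850Z.TB.Tour

set_option autoImplicit false
set_option linter.unusedSectionVars false

namespace Pool.Agent.H850Z.TB

open Finset

theorem main (ε : ℝ) (hε0 : 0 < ε) (hε : ε ≤ 1) (Δ : ℕ) : ∃ C : ℝ, 0 < C ∧
    ∀ (V : Type) [Fintype V] [DecidableEq V] (G : SimpleGraph V) [DecidableRel G.Adj],
      2 ≤ Fintype.card V → G.Connected → (∀ v : V, G.degree v ≤ Δ) →
      ∀ v₀ : V, ∃ f : V → Finset V → V, (∀ (u : V) (S : Finset V), G.Adj u (f u S)) ∧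
        coverTime G ε f v₀ ≤ ENNReal.ofReal (C * (Fintype.card V : ℝ) *
          Real.log (Fintype.card V : ℝ) * Real.log (2 + Real.log (Fintype.card V : ℝ))) := by
  set θ : ℝ := 1 - ε / 6 with hθ
  have hθ0 : 0 < θ := by simp only [hθ]; linarith
  have hθ1 : θ < 1 := by simp only [hθ]; linarith
  have hθε : 1 - ε ≤ θ ^ 6 := by
    have := one_add_mul_le_pow (a := -(ε / 6)) (by linarith) 6
    simp only [hθ]; push_cast at this
    calc 1 - ε = 1 + 6 * -(ε / 6) := by ring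
      _ ≤ (1 + -(ε / 6)) ^ 6 := this
      _ = _ := by ring
  set lam : ℝ := (1 + 1 / θ) / 2 with hlam
  have hl : 1 < lam := by
    have : 1 < 1 / θ := by rw [lt_div_iff₀ hθ0]; linarith
    simp only [hlam]; linarith
  have hθl : θ * lam < 1 := by
    have : θ * lam = (θ + 1) / 2 := by simp only [hlam]; field_simp
    linarith
  set c₁ : ℝ := 1 + lam / (lam - 1) with hc₁
  have hc₁1 : 1 ≤ c₁ := by
    have : 0 ≤ lam / (lam - 1) := div_nonneg (by linarith) (by linarith)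
    simp only [hc₁]; linarith
  have hll : 0 < Real.log lam := Real.log_pos hl
  have hlθ : 0 < - Real.log θ := by have := Real.log_neg hθ0 hθ1; linarith
  have hlc : 0 ≤ Real.log c₁ := Real.log_nonneg hc₁1
  set C₁ : ℝ := (1 + 2 * Real.log c₁) / Real.log lam + 2 with hC₁
  have hC₁2 : 2 ≤ C₁ := by
    have : 0 ≤ (1 + 2 * Real.log c₁) / Real.log lam := by positivity
    simp only [hC₁]; linarith
  have hlC : 0 ≤ Real.log (2 * C₁) := Real.log_nonneg (by linarith)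
  have hlΔ : 0 ≤ Real.log ((Δ : ℝ) + 1) := Real.log_nonneg (by
    have : (0 : ℝ) ≤ Δ := Nat.cast_nonneg _
    linarith)
  set C₃ : ℝ := 2 + 2 * Real.log (2 * C₁) + 2 + (1 / (- Real.log θ) + 2) * Real.log ((Δ : ℝ) + 1)
    with hC₃
  have hC₃0 : 0 ≤ C₃ := by positivity
  have h1θl : 0 < 1 - θ * lam := by linarith
  refine ⟨2 * C₁ * (Δ + 1) / θ ^ 4 * (lam / (1 - θ * lam) * c₁) * (18 + 2 * C₃), by positivity, ?_⟩
  intro V _ _ G _ hn hG hΔ v₀
  set n : ℝ := (Fintype.card V : ℝ) with hn'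
  have hn2 : (2 : ℝ) ≤ n := by simp only [hn']; exact_mod_cast hn
  have hdeg : ∀ x, 0 < G.degree x := by
    intro x
    obtain ⟨w, hw⟩ := Fintype.exists_ne_of_one_lt_card (by omega : 1 < Fintype.card V) x
    obtain ⟨b, hb, _⟩ := exists_pred hG hw.symm
    exact (SimpleGraph.degree_pos_iff_exists_adj G x).mpr ⟨b, hb⟩
  obtain ⟨f, hf, hval⟩ := exists_policy (G := G) hε0.le hε hdeg v₀
  refine ⟨f, hf, hval.trans ?_⟩
  obtain ⟨gap, δ, g1, g2, g3, g4, g5, g6⟩ := exists_shifts hG lam θ hl hθ0 hθl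
  set ℓ : ℝ := Real.log n with hℓ
  have hlog2 : 1 / 2 ≤ Real.log 2 := by have := Real.log_two_gt_d9; linarith
  have hlog2' : Real.log 2 ≤ 1 := by have := Real.log_two_lt_d9; linarith
  have hℓ2 : 1 / 2 ≤ ℓ := hlog2.trans (Real.log_le_log (by norm_num) hn2)
  set m : ℝ := Real.log (2 + ℓ) with hm
  have hm2 : 1 / 2 ≤ m := hlog2.trans (Real.log_le_log (by norm_num) (by linarith))
  obtain ⟨u₀, _, hu₀⟩ := exists_max_image univ δ ⟨v₀, mem_univ _⟩
  set R : ℕ := δ u₀ with hR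
  have hR1 : (R : ℝ) + 1 ≤ C₁ * ℓ := by
    have a1 : lam ^ R ≤ n * c₁ :=
      (single_le_sum (f := fun v => lam ^ δ v) (fun v _ => by positivity) (mem_univ u₀)).trans g6
    have a2 : R * Real.log lam ≤ ℓ + Real.log c₁ := by
      rw [← Real.log_pow, hℓ, ← Real.log_mul (by positivity) (by positivity)]
      exact Real.log_le_log (by positivity) a1
    have a3 : (R : ℝ) ≤ (1 + 2 * Real.log c₁) / Real.log lam * ℓ := by
      rw [div_mul_eq_mul_div, le_div_iff₀ hll]; nlinarith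
    simp only [hC₁]; nlinarith
  set a₀ : ℕ := ⌈m / (- Real.log θ)⌉₊ with ha₀
  have ha1 : θ ^ a₀ * (2 + ℓ) ≤ 1 := by
    have a1 : m / (- Real.log θ) ≤ a₀ := Nat.le_ceil _
    rw [div_le_iff₀ hlθ] at a1
    have a2 : Real.log (θ ^ a₀ * (2 + ℓ)) ≤ 0 := by
      rw [Real.log_mul (by positivity) (by positivity), Real.log_pow]; linarith
    exact (Real.log_nonpos_iff (by positivity)).mp a2
  have ha2 : (a₀ : ℝ) ≤ (1 / (- Real.log θ) + 2) * m := by
    have a1 : (a₀ : ℝ) < m / (- Real.log θ) + 1 := Nat.ceil_lt_add_one (by positivity)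
    have : m / (- Real.log θ) = 1 / (- Real.log θ) * m := by ring
    nlinarith
  set Λ : ℝ := (R + 2) * (Δ + 1) ^ a₀ * (2 + ℓ) with hΛ
  have hΔ1 : (1 : ℝ) ≤ (Δ + 1) ^ a₀ := one_le_pow₀ (by
    have : (0 : ℝ) ≤ Δ := Nat.cast_nonneg _
    linarith)
  have hR0 : (0 : ℝ) ≤ R := Nat.cast_nonneg _
  have hΛ1 : 1 ≤ Λ := by
    calc (1 : ℝ) = 1 * 1 * 1 := by ring
      _ ≤ Λ := by simp only [hΛ]; gcongr <;> linarith
  have hlogΛ : Real.log (Λ + 1) ≤ C₃ * m := by
    have a1 : Real.log (Λ + 1) ≤ Real.log (2 * Λ) := Real.log_le_log (by linarith) (by linarith)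
    have a2 : Real.log (2 * Λ) = Real.log 2 + (Real.log (R + 2) + a₀ * Real.log ((Δ : ℝ) + 1) + m) := by
      rw [Real.log_mul (by norm_num) (by linarith), hΛ, Real.log_mul (by positivity) (by linarith),
        Real.log_mul (by positivity) (by positivity), Real.log_pow]
    have a3 : Real.log ((R : ℝ) + 2) ≤ Real.log (2 * C₁) + m := by
      rw [hm, ← Real.log_mul (by positivity) (by linarith)]
      exact Real.log_le_log (by positivity) (by nlinarith)
    have a4 : a₀ * Real.log ((Δ : ℝ) + 1) ≤ (1 / (- Real.log θ) + 2) * m * Real.log ((Δ : ℝ) + 1) := by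
      gcongr
    simp only [hC₃]
    nlinarith
  have hL : 1 + Real.log (n + 1) ≤ 2 + ℓ := by
    have a1 : Real.log (n + 1) ≤ Real.log (2 * n) := Real.log_le_log (by linarith) (by linarith)
    rw [Real.log_mul (by norm_num) (by linarith)] at a1
    linarith
  have hlog0 : 0 ≤ Real.log (Λ + 1) := Real.log_nonneg (by linarith)
  obtain ⟨A, c, hc, hLoop, hcov, hsum⟩ := glue (ε := ε) hG (fun u => univ.filter fun x => gap u x = 0)
    (fun u => 2 * (R + 1) * Δ / θ ^ 4 * (∑ v, θ ^ gap u v) * (9 + 2 * Real.log (Λ + 1)))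
    (fun u => by
      have : 0 ≤ ∑ v, θ ^ gap u v := sum_nonneg fun v _ => by positivity
      positivity)
    (fun u y z hz hyz U hU hyU A c hc hA => tour hε hG hdeg Δ hΔ θ hθ0 hθ1.le hθε (gap u) (g1 u) u R
      (g3 u) (fun x hx => (g4 u x hx).trans (hu₀ u (mem_univ _))) a₀ (2 + ℓ) Λ hL ha1 le_rfl hΛ1
      y z hz hyz U hU hyU A c hc hA) univ {v₀} (singleton_nonempty _) (fun v => by
        obtain ⟨u, hu⟩ := g2 v
        exact Or.inr ⟨u, mem_univ _, by simpa using hu⟩)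
  have h1 := hLoop v₀ (mem_singleton_self _) {v₀} (mem_singleton_self _)
  have h2 : {v₀} ∪ A v₀ = univ := by
    rw [← hcov]; simp [Cov]
  rw [h2, val_univ, add_zero] at h1
  refine h1.trans (ENNReal.ofReal_le_ofReal ?_)
  rw [sum_singleton] at hsum
  refine hsum.trans ?_
  rw [← sum_mul, ← mul_sum]
  have h3 : ∑ u, ∑ v, θ ^ gap u v ≤ lam / (1 - θ * lam) * c₁ * n := by
    calc ∑ u, ∑ v, θ ^ gap u v ≤ ∑ u, lam ^ (δ u + 1) / (1 - θ * lam) := sum_le_sum fun u _ => g5 u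
      _ = lam / (1 - θ * lam) * ∑ u, lam ^ δ u := by
          rw [mul_sum]; exact sum_congr rfl fun u _ => by rw [pow_succ]; ring
      _ ≤ lam / (1 - θ * lam) * (n * c₁) := by gcongr
      _ = _ := by ring
  have h4 : 9 + 2 * Real.log (Λ + 1) ≤ (18 + 2 * C₃) * m := by nlinarith
  have h5 : 2 * ((R : ℝ) + 1) * Δ / θ ^ 4 ≤ 2 * (C₁ * ℓ) * (Δ + 1) / θ ^ 4 := by
    gcongr; linarith
  calc 2 * ((R : ℝ) + 1) * Δ / θ ^ 4 * (∑ u, ∑ v, θ ^ gap u v) * (9 + 2 * Real.log (Λ + 1))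
      ≤ 2 * (C₁ * ℓ) * (Δ + 1) / θ ^ 4 * (lam / (1 - θ * lam) * c₁ * n) * ((18 + 2 * C₃) * m) := by
        gcongr
    _ = _ := by ring

end Pool.Agent.H850Z.TB
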