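import Pool.Agent.H850Z.TB.Net

set_option autoImplicit false
set_option linter.unusedSectionVars false

namespace Pool.Agent.H850Z.TB

open Finset

variable {V : Type} [Fintype V] [DecidableEq V]

/-- From `x`, the set `A` can be visited and the walk brought back to `x` at cost `c`. -/
def Loop (G : SimpleGraph V) [DecidableRel G.Adj] (ε : ℝ) (x : V) (A : Finset V) (c : ℝ) : Prop :=
  ∀ S : Finset V, x ∈ S → val G ε (x, S) ≤ ENNReal.ofReal c + val G ε (x, S ∪ A)

def Cov (U : Finset V) (A : V → Finset V) : Finset V := U.biUnion (fun z => insert z (A z))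

def Go (G : SimpleGraph V) [DecidableRel G.Adj] (ε : ℝ) (X : Finset V) (y : V) (U : Finset V)
    (A : V → Finset V) (c : V → ℝ) (g : ℝ) : Prop :=
  ∀ x ∈ X, x ∉ U → ∀ S : Finset V,
    val G ε (x, S) ≤ ENNReal.ofReal (g + ∑ z ∈ U, c z) + val G ε (y, S ∪ Cov U A)

variable {G : SimpleGraph V} [DecidableRel G.Adj] {ε : ℝ}

theorem Go.mono {X : Finset V} {y : V} {U : Finset V} {A : V → Finset V} {c : V → ℝ} {g g' : ℝ}
    (h : Go G ε X y U A c g) (hg : g ≤ g') : Go G ε X y U A c g' := by
  intro x hx hxU S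
  refine (h x hx hxU S).trans ?_
  gcongr

theorem go_empty (hε : ε ≤ 1) {X : Finset V} {H : ℝ} (hN : Net G ε X H) {y : V} (hy : y ∈ X)
    (A : V → Finset V) (c : V → ℝ) : Go G ε X y ∅ A c H := by
  obtain ⟨P, h, hP, h0, hz, hsup, hH⟩ := hN
  intro x hx _ S
  simp only [sum_empty, add_zero, Cov, biUnion_empty, union_empty]
  by_cases hxy : x = y
  · subst hxy; exact le_add_self
  · have := hit hP hε {y} (h y) (h0 y) (fun x hx => hsup y x (by simpa using hx)) S
      (val G ε (y, S)) (fun w hw => by
        have hw' : w = y := by simpa using hw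
        subst hw'
        exact (val_mono G ε w (subset_insert w S)).trans le_add_self) x (by simpa using hxy)
    refine this.trans ?_
    gcongr
    exact hH y hy x hx

theorem log_step (k : ℕ) (hk : 1 ≤ k) :
    1 / (k : ℝ) ≤ 2 * (Real.log ((k : ℝ) + 1) - Real.log k) := by
  have hk' : (1 : ℝ) ≤ k := by exact_mod_cast hk
  have h1 : Real.log ((k : ℝ) / (k + 1)) ≤ (k : ℝ) / (k + 1) - 1 :=
    Real.log_le_sub_one_of_pos (by positivity)
  rw [Real.log_div (by positivity) (by positivity)] at h1
  have h2 : (k : ℝ) / (k + 1) - 1 = - (1 / (k + 1)) := by field_simp; ring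
  have h3 : 1 / (k : ℝ) ≤ 2 * (1 / (k + 1)) := by
    rw [mul_one_div, div_le_div_iff₀ (by positivity) (by positivity)]; linarith
  linarith

theorem matthews (hε : ε ≤ 1) {X : Finset V} {H : ℝ} (hN : Net G ε X H) (hH0 : 0 ≤ H) (y : V)
    (U₀ : Finset V) (hU₀ : U₀ ⊆ X) (A : V → Finset V) (c : V → ℝ) (hc : ∀ z, 0 ≤ c z)
    (hL : ∀ z ∈ U₀, Loop G ε z (A z) (c z)) (k₁ : ℕ) (g : ℝ) (hg : 0 ≤ g)
    (hbase : ∀ U ⊆ U₀, U.card = k₁ → Go G ε X y U A c g) :
    ∀ U ⊆ U₀, k₁ ≤ U.card →
      Go G ε X y U A c (H + g + 2 * H * (Real.log ((U.card : ℝ) + 1) - Real.log ((k₁ : ℝ) + 1))) := by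
  obtain ⟨P, h, hP, h0, hz, hsup, hH⟩ := hN
  set a : ℕ → ℝ := fun k => g + 2 * H * (Real.log ((k : ℝ) + 1) - Real.log ((k₁ : ℝ) + 1)) with ha
  have ha0 : ∀ k, k₁ ≤ k → 0 ≤ a k := by
    intro k hk
    have : Real.log ((k₁ : ℝ) + 1) ≤ Real.log ((k : ℝ) + 1) :=
      Real.log_le_log (by positivity) (by exact_mod_cast Nat.succ_le_succ hk)
    have : 0 ≤ 2 * H * (Real.log ((k : ℝ) + 1) - Real.log ((k₁ : ℝ) + 1)) :=
      mul_nonneg (by linarith) (by linarith)
    simp only [ha]; linarith
  have key : ∀ k, k₁ ≤ k → ∀ U ⊆ U₀, U.card = k → ∀ x ∈ X, x ∉ U → ∀ S : Finset V,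
      val G ε (x, S) ≤ ENNReal.ofReal ((∑ z ∈ U, h z x) / k + a k + ∑ z ∈ U, c z) +
        val G ε (y, S ∪ Cov U A) := by
    intro k hk
    induction k, hk using Nat.le_induction with
    | base =>
      intro U hU hcard x hx hxU S
      refine (hbase U hU hcard x hx hxU S).trans ?_
      gcongr
      have : 0 ≤ (∑ z ∈ U, h z x) / k₁ := div_nonneg (sum_nonneg fun z _ => h0 z x) (by positivity)
      simp only [ha]; linarith
    | succ k hk ih =>
      intro U hU hcard x _ hxU S
      have hk1 : (0 : ℝ) < ((k + 1 : ℕ) : ℝ) := by positivity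
      have hcU : 0 ≤ ∑ z ∈ U, c z := sum_nonneg fun z _ => hc z
      have hak := ha0 (k + 1) (by omega)
      refine hit hP hε U (fun x => (∑ z ∈ U, h z x) / ((k + 1 : ℕ) : ℝ) + a (k + 1) + ∑ z ∈ U, c z)
        (fun x => ?_) (fun x hx => ?_) S _ (fun z hzU => ?_) x hxU
      · have : 0 ≤ (∑ z ∈ U, h z x) / ((k + 1 : ℕ) : ℝ) :=
          div_nonneg (sum_nonneg fun z _ => h0 z x) hk1.le
        linarith
      · have e1 : ∑ w ∈ G.neighborFinset x, P x w *
            ((∑ z ∈ U, h z w) / ((k + 1 : ℕ) : ℝ) + a (k + 1) + ∑ z ∈ U, c z) =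
            (∑ z ∈ U, ∑ w ∈ G.neighborFinset x, P x w * h z w) / ((k + 1 : ℕ) : ℝ) +
              (a (k + 1) + ∑ z ∈ U, c z) := by
          have : ∀ w ∈ G.neighborFinset x, P x w *
              ((∑ z ∈ U, h z w) / ((k + 1 : ℕ) : ℝ) + a (k + 1) + ∑ z ∈ U, c z) =
              (∑ z ∈ U, P x w * h z w) / ((k + 1 : ℕ) : ℝ) +
                P x w * (a (k + 1) + ∑ z ∈ U, c z) := by
            intro w _
            rw [← mul_sum]; ring
          rw [sum_congr rfl this, sum_add_distrib, ← sum_mul, hP.sum x, one_mul, ← sum_div,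
            sum_comm]
        rw [e1]
        have h2 : ∑ z ∈ U, (1 + ∑ w ∈ G.neighborFinset x, P x w * h z w) ≤ ∑ z ∈ U, h z x :=
          sum_le_sum fun z hz => hsup z x (fun e => hx (e ▸ hz))
        rw [sum_add_distrib, sum_const, hcard, nsmul_eq_mul, mul_one] at h2
        have h3 : 1 + (∑ z ∈ U, ∑ w ∈ G.neighborFinset x, P x w * h z w) / ((k + 1 : ℕ) : ℝ) ≤
            (∑ z ∈ U, h z x) / ((k + 1 : ℕ) : ℝ) := by
          rw [add_div' _ _ _ hk1.ne', div_le_div_iff_of_pos_right hk1]
          linarith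
        linarith
      · have hzU₀ := hU hzU
        have hcard' : (U.erase z).card = k := by rw [card_erase_of_mem hzU, hcard]; rfl
        have h1 := hL z hzU₀ (insert z S) (mem_insert_self z S)
        have h2 := ih (U.erase z) ((erase_subset z U).trans hU) hcard' z (hU₀ hzU₀)
          (notMem_erase z U) (insert z S ∪ A z)
        have e : insert z S ∪ A z ∪ Cov (U.erase z) A = S ∪ Cov U A := by
          conv_rhs => rw [← insert_erase hzU]
          simp only [Cov, biUnion_insert]
          ext w; simp only [mem_union, mem_insert]; tauto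
        rw [e] at h2
        refine h1.trans ((add_le_add le_rfl h2).trans ?_)
        rw [← add_assoc]
        gcongr
        have hs0 : 0 ≤ ∑ w ∈ U.erase z, h w z := sum_nonneg fun w _ => h0 w z
        have hce : 0 ≤ ∑ w ∈ U.erase z, c w := sum_nonneg fun w _ => hc w
        have hak' := ha0 k hk
        rw [← ENNReal.ofReal_add (hc z) (by
          have : 0 ≤ (∑ w ∈ U.erase z, h w z) / (k : ℝ) := div_nonneg hs0 (by positivity)
          linarith)]
        apply ENNReal.ofReal_le_ofReal
        have e1 : ∑ w ∈ U, h w z = ∑ w ∈ U.erase z, h w z := by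
          rw [← add_sum_erase U _ hzU, hz, zero_add]
        have e2 : ∑ w ∈ U, c w = c z + ∑ w ∈ U.erase z, c w := (add_sum_erase U _ hzU).symm
        rw [e1, e2]
        have hsH : ∑ w ∈ U.erase z, h w z ≤ k * H := by
          calc ∑ w ∈ U.erase z, h w z ≤ ∑ _w ∈ U.erase z, H :=
                sum_le_sum fun w hw => hH w (hU₀ (hU (erase_subset z U hw))) z (hU₀ hzU₀)
            _ = k * H := by rw [sum_const, hcard', nsmul_eq_mul]
        have hl := log_step (k + 1) (by omega)
        have h5 : (∑ w ∈ U.erase z, h w z) / (k : ℝ) ≤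
            (∑ w ∈ U.erase z, h w z) / ((k + 1 : ℕ) : ℝ) + H * (1 / ((k + 1 : ℕ) : ℝ)) := by
          rcases Nat.eq_zero_or_pos k with hk0 | hk0
          · subst hk0
            simp only [Nat.cast_zero, div_zero]
            positivity
          · have hk0' : (0 : ℝ) < k := by exact_mod_cast hk0
            rw [mul_one_div, ← add_div, div_le_div_iff₀ hk0' hk1]
            push_cast
            nlinarith
        have h6 : H * (1 / ((k + 1 : ℕ) : ℝ)) ≤
            H * (2 * (Real.log (((k + 1 : ℕ) : ℝ) + 1) - Real.log ((k + 1 : ℕ) : ℝ))) :=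
          mul_le_mul_of_nonneg_left hl hH0
        simp only [ha]
        push_cast at h5 h6 ⊢
        nlinarith
  intro U hU hk x hx hxU S
  refine (key U.card hk U hU rfl x hx hxU S).trans ?_
  refine add_le_add (ENNReal.ofReal_le_ofReal ?_) le_rfl
  have : (∑ z ∈ U, h z x) / (U.card : ℝ) ≤ H := by
    rcases Nat.eq_zero_or_pos U.card with h1 | h1
    · rw [h1]; simpa using hH0
    · rw [div_le_iff₀ (by exact_mod_cast h1)]
      calc ∑ z ∈ U, h z x ≤ ∑ _z ∈ U, H := sum_le_sum fun w hw => hH w (hU₀ (hU hw)) x hx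
        _ = H * U.card := by rw [sum_const, nsmul_eq_mul, mul_comm]
  simp only [ha]
  linarith

/-- Gluing clusters along a connected graph: each cluster `S j` can be toured from any adjacent
vertex at cost `cost j`, pausing at each new vertex for a loop. -/
theorem glue (hG : G.Connected) {ι : Type} [DecidableEq ι] (S : ι → Finset V) (cost : ι → ℝ)
    (hcost : ∀ j, 0 ≤ cost j)
    (htour : ∀ j y z, z ∈ S j → G.Adj y z → ∀ U ⊆ S j, y ∉ U → ∀ (A : V → Finset V) (c : V → ℝ),
      (∀ z, 0 ≤ c z) → (∀ z ∈ U, Loop G ε z (A z) (c z)) →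
      Loop G ε y (Cov U A) (cost j + ∑ z ∈ U, c z))
    (J : Finset ι) : ∀ Y : Finset V, Y.Nonempty → (∀ v, v ∈ Y ∨ ∃ j ∈ J, v ∈ S j) →
      ∃ (A : V → Finset V) (c : V → ℝ), (∀ z, 0 ≤ c z) ∧ (∀ z ∈ Y, Loop G ε z (A z) (c z)) ∧
        Cov Y A = univ ∧ ∑ z ∈ Y, c z ≤ ∑ j ∈ J, cost j := by
  induction hJ : J.card generalizing J with
  | zero =>
    intro Y _ hY
    have : J = ∅ := card_eq_zero.mp hJ
    subst this
    refine ⟨fun _ => ∅, fun _ => 0, fun _ => le_rfl, fun z _ S _ => by simp, ?_, by simp⟩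
    ext v
    simp only [Cov, mem_biUnion, mem_insert, mem_univ, iff_true]
    rcases hY v with h | ⟨j, hj, _⟩
    · exact ⟨v, h, Or.inl rfl⟩
    · simp at hj
  | succ n ih =>
    intro Y hne hY
    by_cases hall : ∀ v, v ∈ Y
    · refine ⟨fun _ => ∅, fun _ => 0, fun _ => le_rfl, fun z _ S _ => by simp, ?_, ?_⟩
      · ext v
        simp only [Cov, mem_biUnion, mem_insert, mem_univ, iff_true]
        exact ⟨v, hall v, Or.inl rfl⟩
      · simpa using sum_nonneg fun j _ => hcost j
    · push Not at hall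
      obtain ⟨v, hv⟩ := hall
      obtain ⟨w, hw⟩ := hne
      have hedge : ∃ y z, y ∈ Y ∧ z ∉ Y ∧ G.Adj y z := by
        obtain ⟨p⟩ := hG.preconnected w v
        clear hY ih
        induction p with
        | nil => exact absurd hw hv
        | @cons a b c hab p ihp =>
          by_cases hb : b ∈ Y
          · exact ihp hv hb
          · exact ⟨a, b, hw, hb, hab⟩
      obtain ⟨y, z, hy, hz, hyz⟩ := hedge
      obtain ⟨j, hj, hzj⟩ := (hY z).resolve_left hz
      obtain ⟨A, c, hc, hL, hcov, hsum⟩ := ih (J.erase j) (by rw [card_erase_of_mem hj, hJ]; rfl)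
        (Y ∪ S j) ⟨y, mem_union_left _ hy⟩ (fun v => by
          rcases hY v with h | ⟨i, hi, h⟩
          · exact Or.inl (mem_union_left _ h)
          · by_cases hij : i = j
            · subst hij; exact Or.inl (mem_union_right _ h)
            · exact Or.inr ⟨i, mem_erase.mpr ⟨hij, hi⟩, h⟩)
      set U := S j \ Y with hU
      have hyU : y ∉ U := by simp [hU, hy]
      have hT := htour j y z hzj hyz U sdiff_subset hyU A c hc
        (fun x hx => hL x (mem_union_right _ (mem_sdiff.mp hx).1))
      have hcU : 0 ≤ ∑ z ∈ U, c z := sum_nonneg fun z _ => hc z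
      refine ⟨fun x => if x = y then A y ∪ Cov U A else A x,
        fun x => if x = y then c y + (cost j + ∑ z ∈ U, c z) else c x, fun x => ?_, fun x hx => ?_,
        ?_, ?_⟩
      · dsimp only
        split_ifs
        · have := hc y; have := hcost j; linarith
        · exact hc x
      · by_cases hxy : x = y
        · subst hxy
          simp only [if_true]
          intro T hT'
          have h1 := hL x (mem_union_left _ hx) T hT'
          have h2 := hT (T ∪ A x) (mem_union_left _ hT')
          refine h1.trans ((add_le_add le_rfl h2).trans ?_)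
          rw [← add_assoc, ← ENNReal.ofReal_add (hc x) (by have := hcost j; linarith), union_assoc]
        · simp only [if_neg hxy]
          exact hL x (mem_union_left _ hx)
      · ext v
        simp only [mem_univ, iff_true]
        have hv' : v ∈ Cov (Y ∪ S j) A := by rw [hcov]; exact mem_univ v
        simp only [Cov, mem_biUnion, mem_insert, mem_union] at hv' ⊢
        obtain ⟨x, hx, hvx⟩ := hv'
        by_cases hxY : x ∈ Y
        · refine ⟨x, hxY, ?_⟩
          rcases hvx with h | h
          · exact Or.inl h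
          · right
            split_ifs with hxy
            · subst hxy; exact mem_union_left _ h
            · exact h
        · refine ⟨y, hy, Or.inr ?_⟩
          simp only [if_true]
          refine mem_union_right _ ?_
          simp only [mem_biUnion, mem_insert]
          exact ⟨x, mem_sdiff.mpr ⟨hx.resolve_left hxY, hxY⟩, hvx⟩
      · have e1 : ∑ x ∈ Y, (if x = y then c y + (cost j + ∑ z ∈ U, c z) else c x) =
            ∑ x ∈ Y, c x + (cost j + ∑ z ∈ U, c z) := by
          have : ∀ x ∈ Y, (if x = y then c y + (cost j + ∑ z ∈ U, c z) else c x) =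
              c x + (if x = y then (cost j + ∑ z ∈ U, c z) else 0) := by
            intro x _
            split_ifs with h
            · rw [h]
            · simp
          rw [sum_congr rfl this, sum_add_distrib, sum_ite_eq' Y y, if_pos hy]
        have e2 : ∑ x ∈ Y ∪ S j, c x = ∑ x ∈ Y, c x + ∑ z ∈ U, c z := by
          rw [← sum_union disjoint_sdiff, union_sdiff_self_eq_union]
        have e3 : ∑ i ∈ J, cost i = cost j + ∑ i ∈ J.erase j, cost i := (add_sum_erase J _ hj).symm
        rw [e1, e3]
        linarith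

end Pool.Agent.H850Z.TB
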