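import Pool.Agent.H850Z.TB.Val

set_option autoImplicit false
set_option linter.unusedSectionVars false

namespace Pool.Agent.H850Z.TB

open Finset

variable {V : Type} [Fintype V] [DecidableEq V] {G : SimpleGraph V} [DecidableRel G.Adj] {ε : ℝ}

theorem level_set (φ : V → ℝ) (hφ : ∀ v, 0 < φ v) (f : V → ℝ) (z : V) (m : V → ℝ)
    (hm : ∀ v, 0 ≤ m v)
    (hf : ∀ v, v ≠ z → ∑ y ∈ G.neighborFinset v, φ v * φ y * (f v - f y) ≤ m v)
    {a b : V} (hab : G.Adj a b) (hz : f z < f a) (hb : f b < f a) :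
    φ a * φ b * (f a - f b) ≤ ∑ v, m v := by
  classical
  set A : Finset V := univ.filter (fun v => f a ≤ f v) with hA
  set g : V → V → ℝ := fun v y => if G.Adj v y then φ v * φ y * (f v - f y) else 0 with hg
  have h1 : ∀ v, ∑ y ∈ G.neighborFinset v, φ v * φ y * (f v - f y) = ∑ y, g v y := by
    intro v
    rw [SimpleGraph.neighborFinset_eq_filter, sum_filter]
  have h2 : ∑ v ∈ A, ∑ y, g v y ≤ ∑ v, m v := by
    calc ∑ v ∈ A, ∑ y, g v y ≤ ∑ v ∈ A, m v := by
          refine sum_le_sum fun v hv => ?_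
          rw [← h1]
          apply hf
          rintro rfl
          have : f a ≤ f v := by simpa [hA] using hv
          linarith
      _ ≤ ∑ v, m v := sum_le_sum_of_subset_of_nonneg (subset_univ _) fun v _ _ => hm v
  have anti : ∀ v y, g v y = - g y v := by
    intro v y
    simp only [hg]
    by_cases h : G.Adj v y
    · rw [if_pos h, if_pos h.symm]; ring
    · rw [if_neg h, if_neg (fun h' => h h'.symm)]; simp
  have h3 : ∑ v ∈ A, ∑ y ∈ A, g v y = 0 := by
    have : ∑ v ∈ A, ∑ y ∈ A, g v y = - ∑ v ∈ A, ∑ y ∈ A, g v y := by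
      conv_rhs => rw [sum_comm]
      rw [← sum_neg_distrib]
      refine sum_congr rfl fun v _ => ?_
      rw [← sum_neg_distrib]
      exact sum_congr rfl fun y _ => anti v y
    linarith
  have h4 : ∑ v ∈ A, ∑ y, g v y = ∑ v ∈ A, ∑ y ∈ A, g v y + ∑ v ∈ A, ∑ y ∈ Aᶜ, g v y := by
    rw [← sum_add_distrib]
    exact sum_congr rfl fun v _ => (sum_add_sum_compl A _).symm
  have hnn : ∀ v ∈ A, ∀ y ∈ Aᶜ, 0 ≤ g v y := by
    intro v hv y hy
    have hv' : f a ≤ f v := by simpa [hA] using hv
    have hy' : f y < f a := by simpa [hA] using hy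
    simp only [hg]
    split_ifs
    · exact mul_nonneg (mul_pos (hφ v) (hφ y)).le (by linarith)
    · exact le_rfl
  have haA : a ∈ A := by simp [hA]
  have hbA : b ∈ Aᶜ := by simpa [hA] using hb
  have h5 : g a b ≤ ∑ v ∈ A, ∑ y ∈ Aᶜ, g v y :=
    (single_le_sum (hnn a haA) hbA).trans
      (single_le_sum (f := fun v => ∑ y ∈ Aᶜ, g v y) (fun v hv => sum_nonneg (hnn v hv)) haA)
  have h6 : g a b = φ a * φ b * (f a - f b) := by simp [hg, hab]
  linarith

theorem max_principle (hG : G.Connected) (φ : V → ℝ) (hφ : ∀ v, 0 < φ v) (f : V → ℝ) (z : V)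
    (hz : f z = 0)
    (hf : ∀ v, v ≠ z → ∑ y ∈ G.neighborFinset v, φ v * φ y * (f v - f y) ≤ 0) (a : V) :
    f a ≤ 0 := by
  obtain ⟨p⟩ := hG.preconnected a z
  induction p with
  | nil => exact hz.le
  | @cons a b c hab p ih =>
    have hb := ih hz hf
    by_contra h
    push Not at h
    have := level_set φ hφ f c (fun _ => 0) (fun _ => le_rfl) hf hab (by linarith) (by linarith)
    simp only [sum_const_zero] at this
    have h2 : 0 < φ a * φ b * (f a - f b) := mul_pos (mul_pos (hφ a) (hφ b)) (by linarith)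
    linarith

theorem exists_solution (hG : G.Connected) (φ : V → ℝ) (hφ : ∀ v, 0 < φ v) (z : V) (m : V → ℝ) :
    ∃ h : V → ℝ, h z = 0 ∧
      ∀ v, v ≠ z → ∑ y ∈ G.neighborFinset v, φ v * φ y * (h v - h y) = m v := by
  let L : (V → ℝ) →ₗ[ℝ] (V → ℝ) :=
    { toFun := fun f v => if v = z then f z else ∑ y ∈ G.neighborFinset v, φ v * φ y * (f v - f y)
      map_add' := by
        intro f g; funext v
        simp only [Pi.add_apply]
        split_ifs
        · rfl
        · rw [← sum_add_distrib]; exact sum_congr rfl fun y _ => by ring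
      map_smul' := by
        intro c f; funext v
        simp only [Pi.smul_apply, smul_eq_mul, RingHom.id_apply]
        split_ifs
        · rfl
        · rw [mul_sum]; exact sum_congr rfl fun y _ => by ring }
  have hinj : Function.Injective L := by
    rw [← LinearMap.ker_eq_bot, LinearMap.ker_eq_bot']
    intro f hf
    have hz : f z = 0 := by simpa [L] using congrFun hf z
    have hv : ∀ v, v ≠ z → ∑ y ∈ G.neighborFinset v, φ v * φ y * (f v - f y) = 0 := by
      intro v hv
      simpa [L, hv] using congrFun hf v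
    funext a
    have h1 := max_principle hG φ hφ f z hz (fun v h => (hv v h).le) a
    have h2 := max_principle hG φ hφ (fun v => - f v) z (by simp [hz]) (fun v h => by
      have := hv v h
      have e : ∑ y ∈ G.neighborFinset v, φ v * φ y * (-f v - -f y) =
          - ∑ y ∈ G.neighborFinset v, φ v * φ y * (f v - f y) := by
        rw [← sum_neg_distrib]; exact sum_congr rfl fun y _ => by ring
      rw [e, this]; simp) a
    simp only [Pi.zero_apply]
    linarith
  obtain ⟨h, hh⟩ := (LinearMap.injective_iff_surjective.mp hinj) (fun v => if v = z then 0 else m v)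
  refine ⟨h, by simpa [L] using congrFun hh z, fun v hv => ?_⟩
  simpa [L, hv] using congrFun hh v

/-- A realisable kernel with hitting-time functions bounded by `H` between points of `X`. -/
def Net (G : SimpleGraph V) [DecidableRel G.Adj] (ε : ℝ) (X : Finset V) (H : ℝ) : Prop :=
  ∃ (P : V → V → ℝ) (h : V → V → ℝ), Adm G ε P ∧ (∀ z x, 0 ≤ h z x) ∧ (∀ z, h z z = 0) ∧
    (∀ z x, x ≠ z → 1 + ∑ y ∈ G.neighborFinset x, P x y * h z y ≤ h z x) ∧
    ∀ z ∈ X, ∀ x ∈ X, h z x ≤ H

theorem Net.mono {X X' : Finset V} {H H' : ℝ} (h : Net G ε X H) (hX : X' ⊆ X) (hH : H ≤ H') :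
    Net G ε X' H' := by
  obtain ⟨P, h, h1, h2, h3, h4, h5⟩ := h
  exact ⟨P, h, h1, h2, h3, h4, fun z hz x hx => (h5 z (hX hz) x (hX hx)).trans hH⟩

theorem exists_net (hG : G.Connected) (hdeg : ∀ x, 0 < G.degree x) (Δ : ℕ)
    (hΔ : ∀ x, G.degree x ≤ Δ) (φ : V → ℝ) (hφ : ∀ v, 0 < φ v) (hφ1 : ∀ v, φ v ≤ 1)
    (hrat : ∀ a b b', G.Adj a b → G.Adj a b' → (1 - ε) * φ b' ≤ φ b)
    (K : Finset V) (u : V) (rk : V → ℕ) (R : ℕ) (ρ : ℝ) (hρ : 0 < ρ)
    (hKρ : ∀ x ∈ K, ρ ≤ φ x) (hu : u ∈ K)
    (hpar : ∀ x ∈ K, x ≠ u → ∃ b ∈ K, G.Adj x b ∧ rk b < rk x) (hR : ∀ x ∈ K, rk x ≤ R) :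
    Net G ε K (2 * R * (Δ * (∑ v, φ v) / ρ ^ 2)) := by
  set s : V → ℝ := fun a => ∑ b ∈ G.neighborFinset a, φ b with hs
  have hne : ∀ u, (G.neighborFinset u).Nonempty := fun u => by
    rw [← card_pos]; exact hdeg u
  have hs0 : ∀ a, 0 < s a := fun a => sum_pos (fun b _ => hφ b) (hne a)
  have hsol := fun z => exists_solution hG φ hφ z (fun v => φ v * s v)
  choose h hz hh using hsol
  have hnn : ∀ z x, 0 ≤ h z x := by
    intro z x
    have := max_principle hG φ hφ (fun v => - h z v) z (by simp [hz]) (fun v hv => by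
      have e : ∑ y ∈ G.neighborFinset v, φ v * φ y * (-h z v - -h z y) =
          - ∑ y ∈ G.neighborFinset v, φ v * φ y * (h z v - h z y) := by
        rw [← sum_neg_distrib]; exact sum_congr rfl fun y _ => by ring
      rw [e, hh z v hv]
      have := mul_pos (hφ v) (hs0 v)
      linarith) x
    linarith
  set D : ℝ := Δ * (∑ v, φ v) / ρ ^ 2 with hD
  have hW : ∑ v, φ v * s v ≤ Δ * ∑ v, φ v := by
    rw [mul_sum]
    refine sum_le_sum fun v _ => ?_
    have : s v ≤ Δ := by
      calc s v ≤ ∑ _b ∈ G.neighborFinset v, (1 : ℝ) := sum_le_sum fun b _ => hφ1 b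
        _ = G.degree v := by simp
        _ ≤ Δ := by exact_mod_cast hΔ v
    have := hφ v
    nlinarith
  have hD0 : 0 ≤ D := div_nonneg (mul_nonneg (Nat.cast_nonneg _) (sum_nonneg fun v _ => (hφ v).le))
    (by positivity)
  have hedge : ∀ z a b, a ∈ K → b ∈ K → G.Adj a b → h z a ≤ h z b + D := by
    intro z a b ha hb hab
    by_contra hc
    push Not at hc
    have h0 := hnn z b
    have := level_set φ hφ (h z) z (fun v => φ v * s v) (fun v => (mul_pos (hφ v) (hs0 v)).le)
      (fun v hv => (hh z v hv).le) hab (by rw [hz]; linarith) (by linarith)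
    have h1 : ρ ^ 2 ≤ φ a * φ b := by
      rw [sq]; exact mul_le_mul (hKρ a ha) (hKρ b hb) hρ.le (hφ a).le
    have h2 : ρ ^ 2 * (h z a - h z b) ≤ Δ * ∑ v, φ v := by
      calc ρ ^ 2 * (h z a - h z b) ≤ φ a * φ b * (h z a - h z b) :=
            mul_le_mul_of_nonneg_right h1 (by linarith)
        _ ≤ _ := this.trans hW
    have h3 : h z a - h z b ≤ D := by
      rw [hD, le_div_iff₀ (by positivity)]; linarith
    linarith
  have hpath : ∀ z (k : ℕ), ∀ x ∈ K, rk x ≤ k → h z x ≤ h z u + k * D ∧ h z u ≤ h z x + k * D := by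
    intro z k
    induction k with
    | zero =>
      intro x hx hk
      by_cases hxu : x = u
      · subst hxu; simp
      · obtain ⟨b, _, _, hb⟩ := hpar x hx hxu
        omega
    | succ k ih =>
      intro x hx hk
      have : (0 : ℝ) ≤ (k + 1 : ℕ) * D := mul_nonneg (Nat.cast_nonneg _) hD0
      by_cases hxu : x = u
      · subst hxu; constructor <;> linarith
      · obtain ⟨b, hbK, hab, hb⟩ := hpar x hx hxu
        obtain ⟨h1, h2⟩ := ih b hbK (by omega)
        have h3 := hedge z x b hx hbK hab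
        have h4 := hedge z b x hbK hx hab.symm
        push_cast
        constructor <;> nlinarith
  refine ⟨fun a b => φ b / s a, h, ⟨?_, ?_⟩, hnn, hz, ?_, ?_⟩
  · intro a b hab
    have hd : (0 : ℝ) < G.degree a := by exact_mod_cast hdeg a
    rw [div_le_div_iff₀ hd (hs0 a)]
    calc (1 - ε) * s a = ∑ b' ∈ G.neighborFinset a, (1 - ε) * φ b' := by rw [hs, mul_sum]
      _ ≤ ∑ _b' ∈ G.neighborFinset a, φ b :=
          sum_le_sum fun b' hb' => hrat a b b' hab (by simpa using hb')
      _ = φ b * G.degree a := by simp [mul_comm]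
  · intro a
    rw [← sum_div]
    exact div_self (hs0 a).ne'
  · intro z x hx
    have h1 := hh z x hx
    have e1 : ∑ y ∈ G.neighborFinset x, φ x * φ y * (h z x - h z y) =
        φ x * (s x * h z x - ∑ y ∈ G.neighborFinset x, φ y * h z y) := by
      rw [hs]; dsimp only
      rw [sum_mul, ← sum_sub_distrib, mul_sum]
      exact sum_congr rfl fun y _ => by ring
    rw [e1] at h1
    have h2 : s x * h z x - ∑ y ∈ G.neighborFinset x, φ y * h z y = s x :=
      mul_left_cancel₀ (hφ x).ne' h1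
    have e2 : ∑ y ∈ G.neighborFinset x, φ y / s x * h z y =
        (∑ y ∈ G.neighborFinset x, φ y * h z y) / s x := by
      rw [sum_div]; exact sum_congr rfl fun y _ => by ring
    rw [e2]
    have := hs0 x
    rw [add_div' _ _ _ this.ne', div_le_iff₀ this]
    linarith
  · intro z hzK x hx
    have h1 := (hpath z R x hx (hR x hx)).1
    have h2 := (hpath z R z hzK (hR z hzK)).2
    rw [hz] at h2
    linarith

end Pool.Agent.H850Z.TB
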