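import Pool.Agent.H850Z.TB.Mat
import Pool.Agent.H850Z.TB.MPX

set_option autoImplicit false
set_option linter.unusedSectionVars false

namespace Pool.Agent.H850Z.TB

open Finset

variable {V : Type} [Fintype V] [DecidableEq V] {G : SimpleGraph V} [DecidableRel G.Adj] {ε : ℝ}

theorem net_of_exp (hG : G.Connected) (hdeg : ∀ x, 0 < G.degree x) (Δ : ℕ)
    (hΔ : ∀ x, G.degree x ≤ Δ) (θ : ℝ) (hθ : 0 < θ) (hθ1 : θ ≤ 1) (hθε : 1 - ε ≤ θ ^ 6)
    (e : V → ℕ) (he : ∀ a b, G.Adj a b → e a ≤ e b + 3)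
    (K : Finset V) (u : V) (rk : V → ℕ) (R : ℕ) (hK : ∀ x ∈ K, e x ≤ 2) (hu : u ∈ K)
    (hpar : ∀ x ∈ K, x ≠ u → ∃ b ∈ K, G.Adj x b ∧ rk b < rk x) (hR : ∀ x ∈ K, rk x ≤ R) :
    Net G ε K (2 * R * Δ / θ ^ 4 * ∑ v, θ ^ e v) := by
  have := exists_net (ε := ε) hG hdeg Δ hΔ (fun v => θ ^ e v) (fun v => by positivity)
    (fun v => pow_le_one₀ hθ.le hθ1) (fun a b b' hb hb' => by
      have h1 := he b a hb.symm
      have h2 := he a b' hb'
      calc (1 - ε) * θ ^ e b' ≤ θ ^ 6 * θ ^ e b' := by gcongr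
        _ = θ ^ (6 + e b') := (pow_add _ _ _).symm
        _ ≤ θ ^ e b := pow_le_pow_of_le_one hθ.le hθ1 (by omega))
    K u rk R (θ ^ 2) (by positivity) (fun x hx => pow_le_pow_of_le_one hθ.le hθ1 (hK x hx)) hu hpar hR
  refine this.mono subset_rfl (le_of_eq ?_)
  field_simp

theorem ball_card (hG : G.Connected) (Δ : ℕ) (hΔ : ∀ x, G.degree x ≤ Δ) (K : Finset V) (i : ℕ) :
    (univ.filter fun a => ∃ p ∈ K, G.dist p a ≤ i).card ≤ K.card * (Δ + 1) ^ i := by
  classical
  induction i with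
  | zero =>
    simp only [pow_zero, mul_one]
    refine card_le_card fun a ha => ?_
    obtain ⟨p, hp, h⟩ := (mem_filter.mp ha).2
    have : p = a := hG.dist_eq_zero_iff.mp (by omega)
    exact this ▸ hp
  | succ i ih =>
    set B := univ.filter fun a => ∃ p ∈ K, G.dist p a ≤ i with hB
    have hsub : (univ.filter fun a => ∃ p ∈ K, G.dist p a ≤ i + 1) ⊆
        B.biUnion (fun b => insert b (G.neighborFinset b)) := by
      intro a ha
      obtain ⟨p, hp, h⟩ := (mem_filter.mp ha).2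
      simp only [mem_biUnion, mem_insert, hB, mem_filter, mem_univ, true_and,
        SimpleGraph.mem_neighborFinset]
      by_cases hap : a = p
      · exact ⟨a, ⟨p, hp, by simp [hap]⟩, Or.inl rfl⟩
      · obtain ⟨b, hab, hb⟩ := exists_pred hG hap
        exact ⟨b, ⟨p, hp, by omega⟩, Or.inr hab.symm⟩
    refine (card_le_card hsub).trans (card_biUnion_le.trans ?_)
    calc ∑ b ∈ B, (insert b (G.neighborFinset b)).card ≤ ∑ _b ∈ B, (Δ + 1) :=
          sum_le_sum fun b _ => (card_insert_le _ _).trans (by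
            have := hΔ b
            rw [SimpleGraph.card_neighborFinset_eq_degree]; omega)
      _ = B.card * (Δ + 1) := by simp
      _ ≤ K.card * (Δ + 1) ^ i * (Δ + 1) := Nat.mul_le_mul_right _ ih
      _ = _ := by ring

theorem exists_skel (X : Finset V) (u : V) (rk : V → ℕ) (R : ℕ)
    (hpar : ∀ x ∈ X, x ≠ u → ∃ b ∈ X, G.Adj x b ∧ rk b < rk x) (hR : ∀ x ∈ X, rk x ≤ R)
    (T : Finset V) (hT : T ⊆ X) (hne : T.Nonempty) :
    ∃ K : Finset V, T ⊆ K ∧ K ⊆ X ∧ u ∈ K ∧ (∀ x ∈ K, x ≠ u → ∃ b ∈ K, G.Adj x b ∧ rk b < rk x) ∧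
      K.card ≤ T.card * (R + 1) := by
  have hQ : ∀ k, ∀ x ∈ X, rk x ≤ k → ∃ Q : Finset V, x ∈ Q ∧ Q ⊆ X ∧ u ∈ Q ∧
      (∀ w ∈ Q, w ≠ u → ∃ b ∈ Q, G.Adj w b ∧ rk b < rk w) ∧ Q.card ≤ k + 1 := by
    intro k
    induction k with
    | zero =>
      intro x hx hk
      by_cases hxu : x = u
      · subst hxu
        exact ⟨{x}, by simp, by simpa using hx, by simp, by simp, by simp⟩
      · obtain ⟨b, _, _, hb⟩ := hpar x hx hxu
        omega
    | succ k ih =>
      intro x hx hk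
      by_cases hxu : x = u
      · subst hxu
        exact ⟨{x}, by simp, by simpa using hx, by simp, by simp, by simp⟩
      · obtain ⟨b, hbX, hab, hb⟩ := hpar x hx hxu
        obtain ⟨Q, h1, h2, h3, h4, h5⟩ := ih b hbX (by omega)
        refine ⟨insert x Q, by simp, insert_subset hx h2, mem_insert_of_mem h3, ?_,
          (card_insert_le _ _).trans (by omega)⟩
        intro w hw hwu
        rcases mem_insert.mp hw with rfl | hw
        · exact ⟨b, mem_insert_of_mem h1, hab, hb⟩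
        · obtain ⟨c, hc, h⟩ := h4 w hw hwu
          exact ⟨c, mem_insert_of_mem hc, h⟩
  have hQ' : ∀ x, ∃ Q : Finset V, x ∈ X → (x ∈ Q ∧ Q ⊆ X ∧ u ∈ Q ∧
      (∀ w ∈ Q, w ≠ u → ∃ b ∈ Q, G.Adj w b ∧ rk b < rk w) ∧ Q.card ≤ R + 1) := by
    intro x
    by_cases hx : x ∈ X
    · obtain ⟨Q, h⟩ := hQ R x hx (hR x hx)
      exact ⟨Q, fun _ => h⟩
    · exact ⟨∅, fun h => absurd h hx⟩
  choose Q hQ using hQ'
  refine ⟨T.biUnion Q, fun x hx => mem_biUnion.mpr ⟨x, hx, (hQ x (hT hx)).1⟩,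
    biUnion_subset.mpr fun x hx => (hQ x (hT hx)).2.1, ?_, ?_, ?_⟩
  · obtain ⟨x, hx⟩ := hne
    exact mem_biUnion.mpr ⟨x, hx, (hQ x (hT hx)).2.2.1⟩
  · intro w hw hwu
    obtain ⟨x, hx, hwx⟩ := mem_biUnion.mp hw
    obtain ⟨b, hb, h⟩ := (hQ x (hT hx)).2.2.2.1 w hwx hwu
    exact ⟨b, mem_biUnion.mpr ⟨x, hx, hb⟩, h⟩
  · refine card_biUnion_le.trans ?_
    calc ∑ x ∈ T, (Q x).card ≤ ∑ _x ∈ T, (R + 1) := sum_le_sum fun x hx => (hQ x (hT hx)).2.2.2.2
      _ = _ := by simp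

theorem net_skel (hG : G.Connected) (hdeg : ∀ x, 0 < G.degree x) (Δ : ℕ)
    (hΔ : ∀ x, G.degree x ≤ Δ) (θ : ℝ) (hθ : 0 < θ) (hθ1 : θ ≤ 1) (hθε : 1 - ε ≤ θ ^ 6)
    (g : V → ℕ) (hg : ∀ a b, G.Adj a b → g a ≤ g b + 2)
    (X : Finset V) (u : V) (rk : V → ℕ) (R : ℕ) (hX : ∀ x ∈ X, g x ≤ 2)
    (hpar : ∀ x ∈ X, x ≠ u → ∃ b ∈ X, G.Adj x b ∧ rk b < rk x) (hR : ∀ x ∈ X, rk x ≤ R)
    (T : Finset V) (hT : T ⊆ X) (hne : T.Nonempty) (a₀ : ℕ) :
    Net G ε T (2 * R * Δ / θ ^ 4 *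
      (T.card * (R + 1) * (Δ + 1) ^ a₀ + θ ^ a₀ * ∑ v, θ ^ g v)) := by
  classical
  obtain ⟨K, h1, h2, h3, h4, h5⟩ := exists_skel (G := G) X u rk R hpar hR T hT hne
  set d : V → ℕ := fun a => K.inf' ⟨u, h3⟩ (fun p => G.dist p a) with hd
  have hd1 : ∀ a, ∃ p ∈ K, d a = G.dist p a := fun a => exists_mem_eq_inf' _ _
  have hd2 : ∀ a, ∀ p ∈ K, d a ≤ G.dist p a := fun a p hp => inf'_le (fun p => G.dist p a) hp
  have := net_of_exp (ε := ε) hG hdeg Δ hΔ θ hθ hθ1 hθε (fun a => g a + d a) (fun a b hab => by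
      obtain ⟨p, hp, hb⟩ := hd1 b
      have a1 := hd2 a p hp
      have a2 := dist_adj hG p hab
      have a3 := hg a b hab
      omega) K u rk R (fun x hx => by
      have a1 := hd2 x x hx
      have a2 := hX x (h2 hx)
      simp only [SimpleGraph.dist_self] at a1
      omega) h3 h4 (fun x hx => hR x (h2 hx))
  refine this.mono h1 ?_
  gcongr
  have hb := ball_card hG Δ hΔ K a₀
  calc ∑ v, θ ^ (g v + d v) ≤ ∑ v, ((if ∃ p ∈ K, G.dist p v ≤ a₀ then (1 : ℝ) else 0) +
        θ ^ a₀ * θ ^ g v) := by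
        refine sum_le_sum fun v _ => ?_
        split_ifs with hv
        · have : θ ^ (g v + d v) ≤ 1 := pow_le_one₀ hθ.le hθ1
          have : 0 ≤ θ ^ a₀ * θ ^ g v := by positivity
          linarith
        · push Not at hv
          obtain ⟨p, hp, e⟩ := hd1 v
          have := hv p hp
          rw [zero_add, ← pow_add]
          exact pow_le_pow_of_le_one hθ.le hθ1 (by omega)
    _ = ((univ.filter fun a => ∃ p ∈ K, G.dist p a ≤ a₀).card : ℝ) + θ ^ a₀ * ∑ v, θ ^ g v := by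
        rw [sum_add_distrib, sum_boole, mul_sum]
    _ ≤ _ := by
        gcongr
        have : (univ.filter fun a => ∃ p ∈ K, G.dist p a ≤ a₀).card ≤
            T.card * (R + 1) * (Δ + 1) ^ a₀ := hb.trans (Nat.mul_le_mul_right _ h5)
        exact_mod_cast this

/-- Touring one cluster. -/
theorem tour (hε : ε ≤ 1) (hG : G.Connected) (hdeg : ∀ x, 0 < G.degree x) (Δ : ℕ)
    (hΔ : ∀ x, G.degree x ≤ Δ) (θ : ℝ) (hθ : 0 < θ) (hθ1 : θ ≤ 1) (hθε : 1 - ε ≤ θ ^ 6)
    (g : V → ℕ) (hg : ∀ a b, G.Adj a b → g a ≤ g b + 2) (u : V) (R : ℕ)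
    (hpar : ∀ x, g x = 0 → x ≠ u → ∃ b, g b = 0 ∧ G.Adj x b ∧ G.dist u b < G.dist u x)
    (hR : ∀ x, g x = 0 → G.dist u x ≤ R) (a₀ : ℕ) (L Λ : ℝ)
    (hL : 1 + Real.log ((Fintype.card V : ℝ) + 1) ≤ L) (ha₀ : θ ^ a₀ * L ≤ 1)
    (hΛ : (R + 2) * (Δ + 1) ^ a₀ * L ≤ Λ) (hΛ1 : 1 ≤ Λ)
    (y z : V) (hz : z ∈ univ.filter fun x => g x = 0) (hyz : G.Adj y z)
    (U : Finset V) (hU : U ⊆ univ.filter fun x => g x = 0) (hyU : y ∉ U)
    (A : V → Finset V) (c : V → ℝ) (hc : ∀ z, 0 ≤ c z) (hA : ∀ z ∈ U, Loop G ε z (A z) (c z)) :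
    Loop G ε y (Cov U A)
      (2 * (R + 1) * Δ / θ ^ 4 * (∑ v, θ ^ g v) * (9 + 2 * Real.log (Λ + 1)) + ∑ z ∈ U, c z) := by
  classical
  set X : Finset V := insert y (univ.filter fun x => g x = 0) with hX
  set rk : V → ℕ := fun x => if g x = 0 then G.dist u x else R + 1 with hrk
  have hz0 : g z = 0 := (mem_filter.mp hz).2
  have hu0 : g u = 0 := by
    have : ∀ k x, g x = 0 → G.dist u x ≤ k → g u = 0 := by
      intro k
      induction k with
      | zero =>
        intro x hx hk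
        have : u = x := hG.dist_eq_zero_iff.mp (by omega)
        exact this ▸ hx
      | succ k ih =>
        intro x hx hk
        by_cases hxu : x = u
        · exact hxu ▸ hx
        · obtain ⟨b, hb, _, h⟩ := hpar x hx hxu
          exact ih b hb (by omega)
    exact this _ z hz0 le_rfl
  have huX : u ∈ X := mem_insert_of_mem (by simpa using hu0)
  have hyX : y ∈ X := mem_insert_self _ _
  have hUX : U ⊆ X := hU.trans (subset_insert _ _)
  have hX2 : ∀ x ∈ X, g x ≤ 2 := by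
    intro x hx
    rcases mem_insert.mp hx with rfl | hx
    · have := hg x z hyz; omega
    · have := (mem_filter.mp hx).2; omega
  have hparX : ∀ x ∈ X, x ≠ u → ∃ b ∈ X, G.Adj x b ∧ rk b < rk x := by
    intro x hx hxu
    by_cases h0 : g x = 0
    · obtain ⟨b, hb, hab, h⟩ := hpar x h0 hxu
      exact ⟨b, mem_insert_of_mem (by simpa using hb), hab, by simpa [hrk, h0, hb] using h⟩
    · have hxy : x = y := by
        rcases mem_insert.mp hx with h | h
        · exact h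
        · exact absurd (mem_filter.mp h).2 h0
      subst hxy
      refine ⟨z, mem_insert_of_mem hz, hyz, ?_⟩
      have := hR z hz0
      simp only [hrk, hz0, h0, if_true, if_false]; omega
  have hRX : ∀ x ∈ X, rk x ≤ R + 1 := by
    intro x _
    simp only [hrk]
    split_ifs with h
    · have := hR x h; omega
    · exact le_rfl
  set W : ℝ := ∑ v, θ ^ g v with hW
  set κ : ℝ := 2 * (R + 1) * Δ / θ ^ 4 with hκ
  have hκ0 : 0 ≤ κ := by positivity
  have hW0 : 0 ≤ W := sum_nonneg fun v _ => by positivity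
  have hH0 : 0 ≤ κ * W := mul_nonneg hκ0 hW0
  have hN : Net G ε X (κ * W) := by
    have := net_of_exp (ε := ε) hG hdeg Δ hΔ θ hθ hθ1 hθε g (fun a b h => by
      have := hg a b h; omega) X u rk (R + 1) hX2 huX hparX hRX
    refine this.mono subset_rfl (le_of_eq ?_)
    simp only [hκ]; push_cast; ring
  have hUW : (U.card : ℝ) ≤ W := by
    calc (U.card : ℝ) = ∑ v ∈ U, θ ^ g v := by
          rw [sum_congr rfl (g := fun _ => (1 : ℝ)) (fun v hv => by
            rw [(mem_filter.mp (hU hv)).2, pow_zero])]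
          simp
      _ ≤ W := sum_le_sum_of_subset_of_nonneg (subset_univ _) fun v _ _ => by positivity
  have hlog0 : 0 ≤ Real.log (Λ + 1) := Real.log_nonneg (by linarith)
  suffices hGo : Go G ε X y U A c (κ * W * (9 + 2 * Real.log (Λ + 1))) from
    fun S _ => hGo y hyX hyU S
  by_cases hk : (U.card : ℝ) ≤ Λ
  · have := matthews hε hN hH0 y U hUX A c hc hA 0 (κ * W) hH0 (fun U' _ h0 => by
      rw [card_eq_zero.mp h0]; exact go_empty hε hN hyX A c) U subset_rfl (Nat.zero_le _)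
    refine this.mono ?_
    have h1 : Real.log ((U.card : ℝ) + 1) ≤ Real.log (Λ + 1) :=
      Real.log_le_log (by positivity) (by linarith)
    simp only [Nat.cast_zero, zero_add, Real.log_one, sub_zero]
    nlinarith
  · push Not at hk
    have hΛ0 : 0 < Λ := by linarith
    set k₁ : ℕ := ⌊(U.card : ℝ) / Λ⌋₊ with hk₁
    have hk1 : (k₁ : ℝ) * Λ ≤ U.card := by
      rw [← le_div_iff₀ hΛ0]; exact Nat.floor_le (by positivity)
    have hk2 : (U.card : ℝ) < (k₁ + 1) * Λ := by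
      rw [← div_lt_iff₀ hΛ0]; exact Nat.lt_floor_add_one _
    have hk3 : k₁ ≤ U.card := by
      have : (k₁ : ℝ) ≤ U.card := by nlinarith [(Nat.cast_nonneg k₁ : (0 : ℝ) ≤ k₁)]
      exact_mod_cast this
    have hL0 : 0 ≤ L := by
      have := Real.log_nonneg (show (1 : ℝ) ≤ (Fintype.card V : ℝ) + 1 by
        have : (0 : ℝ) ≤ Fintype.card V := Nat.cast_nonneg _
        linarith)
      linarith
    have := matthews hε hN hH0 y U hUX A c hc hA k₁ (8 * (κ * W)) (by linarith) (fun U' hU' h0 => by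
      intro x hx hxU'
      set T : Finset V := insert x (insert y U') with hT
      have hTX : T ⊆ X := insert_subset hx (insert_subset hyX (hU'.trans hUX))
      have hTc : (T.card : ℝ) ≤ k₁ + 2 := by
        have : T.card ≤ k₁ + 2 :=
          (card_insert_le _ _).trans (by have := card_insert_le y U'; omega)
        exact_mod_cast this
      have hN' := net_skel (ε := ε) hG hdeg Δ hΔ θ hθ hθ1 hθε g hg X u rk (R + 1) hX2 hparX hRX T hTX
        ⟨x, mem_insert_self _ _⟩ a₀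
      set W' : ℝ := (k₁ + 2) * (R + 2) * (Δ + 1) ^ a₀ + θ ^ a₀ * W with hW'
      have hW'0 : 0 ≤ W' := by positivity
      have hN'' : Net G ε T (κ * W') := by
        refine hN'.mono subset_rfl ?_
        simp only [hκ, hW']; push_cast
        have : (R : ℝ) + 1 + 1 = R + 2 := by ring
        rw [this]
        gcongr
      have hH' : 0 ≤ κ * W' := mul_nonneg hκ0 hW'0
      have h2 := matthews hε hN'' hH' y U' ((subset_insert _ _).trans (subset_insert _ _)) A c hc
        (fun z hz => hA z (hU' hz)) 0 (κ * W') hH' (fun U'' _ h0 => by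
          rw [card_eq_zero.mp h0]
          exact go_empty hε hN'' (mem_insert_of_mem (mem_insert_self _ _)) A c) U' subset_rfl
        (Nat.zero_le _)
      refine (h2.mono ?_) x (mem_insert_self _ _) hxU'
      have h3 : Real.log ((U'.card : ℝ) + 1) ≤ Real.log ((Fintype.card V : ℝ) + 1) := by
        refine Real.log_le_log (by positivity) ?_
        have : U'.card ≤ Fintype.card V := card_le_univ _
        have : (U'.card : ℝ) ≤ Fintype.card V := by exact_mod_cast this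
        linarith
      simp only [Nat.cast_zero, zero_add, Real.log_one, sub_zero]
      have h4 : W' * L ≤ 4 * W := by
        have b1 : W' * L = (k₁ + 2) * ((R + 2) * (Δ + 1) ^ a₀ * L) + (θ ^ a₀ * L) * W := by
          simp only [hW']; ring
        have b2 : ((k₁ : ℝ) + 2) * ((R + 2) * (Δ + 1) ^ a₀ * L) ≤ (k₁ + 2) * Λ := by gcongr
        have b3 : (θ ^ a₀ * L) * W ≤ 1 * W := by gcongr
        nlinarith
      have h5 : κ * W' * (1 + Real.log ((U'.card : ℝ) + 1)) ≤ κ * W' * L := by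
        gcongr; linarith
      have h6 : κ * (W' * L) ≤ κ * (4 * W) := by gcongr
      nlinarith) U subset_rfl hk3
    refine this.mono ?_
    have h1 : Real.log ((U.card : ℝ) + 1) ≤ Real.log (Λ + 1) + Real.log ((k₁ : ℝ) + 1) := by
      rw [← Real.log_mul (by positivity) (by positivity)]
      refine Real.log_le_log (by positivity) ?_
      nlinarith [(Nat.cast_nonneg k₁ : (0 : ℝ) ≤ k₁)]
    nlinarith

end Pool.Agent.H850Z.TB
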