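import Pool.Agent.H850Z.TB.Defs

set_option autoImplicit false

namespace Pool.Agent.H850Z.TB

open Finset

variable {V : Type} [Fintype V] [DecidableEq V] (G : SimpleGraph V) [DecidableRel G.Adj] (ε : ℝ)

/-- Bellman operator. -/
noncomputable def bell : (V × Finset V → ENNReal) →o (V × Finset V → ENNReal) where
  toFun F p := if p.2 = univ then 0 else
    1 + ∑ y ∈ G.neighborFinset p.1, ENNReal.ofReal ((1 - ε) / (G.degree p.1 : ℝ)) * F (y, insert y p.2)
      + ENNReal.ofReal ε * ⨅ y ∈ G.neighborFinset p.1, F (y, insert y p.2)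
  monotone' := by
    intro F F' h p
    dsimp only
    split_ifs
    · exact le_rfl
    · gcongr with y hy y hy
      · exact h _
      · exact h _

/-- Optimal value. -/
noncomputable def val : V × Finset V → ENNReal := (bell G ε).lfp

theorem bell_val : bell G ε (val G ε) = val G ε := OrderHom.map_lfp _

theorem val_le_of (B : V × Finset V → ENNReal)
    (h : ∀ p, bell G ε (val G ε ⊓ B) p ≤ B p) : ∀ p, val G ε p ≤ B p := by
  have : val G ε ≤ val G ε ⊓ B := by
    apply OrderHom.lfp_le
    apply le_inf
    · calc bell G ε (val G ε ⊓ B) ≤ bell G ε (val G ε) := (bell G ε).monotone inf_le_left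
        _ = val G ε := bell_val G ε
    · exact h
  intro p
  exact (this p).trans (inf_le_right (a := val G ε p))

theorem val_univ (x : V) : val G ε (x, univ) = 0 := by
  rw [← bell_val]; simp [bell]

theorem val_mono (x : V) {S S' : Finset V} (h : S ⊆ S') : val G ε (x, S') ≤ val G ε (x, S) := by
  have key : val G ε ≤ fun p => ⨅ T, ⨅ (_ : T ⊆ p.2), val G ε (p.1, T) := by
    apply OrderHom.lfp_le
    intro p
    refine le_iInf fun T => le_iInf fun hT => ?_
    conv_rhs => rw [← bell_val]
    simp only [bell, OrderHom.coe_mk]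
    by_cases hp : p.2 = univ
    · simp [hp]
    · have hT' : T ≠ univ := by
        rintro rfl
        exact hp (univ_subset_iff.mp hT)
      rw [if_neg hp, if_neg hT']
      gcongr with y hy y hy
      · exact iInf₂_le_of_le (insert y T) (insert_subset_insert y hT) le_rfl
      · exact iInf₂_le_of_le (insert y T) (insert_subset_insert y hT) le_rfl
  exact (key (x, S')).trans (iInf₂_le_of_le S h le_rfl)

/-- An admissible kernel: a transition rule the controller can realise. -/
structure Adm (P : V → V → ℝ) : Prop where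
  low : ∀ x y, G.Adj x y → (1 - ε) / (G.degree x : ℝ) ≤ P x y
  sum : ∀ x, ∑ y ∈ G.neighborFinset x, P x y = 1

variable {G ε}

theorem Adm.deg_pos {P : V → V → ℝ} (hP : Adm G ε P) (x : V) : 0 < G.degree x := by
  rcases Nat.eq_zero_or_pos (G.degree x) with h | h
  · have h1 := hP.sum x
    have : G.neighborFinset x = ∅ := by
      rw [← card_eq_zero]; exact h
    rw [this] at h1; simp at h1
  · exact h

theorem Adm.nonneg {P : V → V → ℝ} (hP : Adm G ε P) (hε : ε ≤ 1) {x y : V} (h : G.Adj x y) :
    0 ≤ P x y :=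
  le_trans (div_nonneg (by linarith) (Nat.cast_nonneg _)) (hP.low x y h)

theorem bell_le {P : V → V → ℝ} (hP : Adm G ε P) (hε : ε ≤ 1) (F : V × Finset V → ENNReal)
    (x : V) (S : Finset V) :
    bell G ε F (x, S) ≤ 1 + ∑ y ∈ G.neighborFinset x, ENNReal.ofReal (P x y) * F (y, insert y S) := by
  simp only [bell, OrderHom.coe_mk]
  split_ifs
  · exact zero_le
  rw [add_assoc]
  gcongr
  have hd : (0 : ℝ) < G.degree x := by exact_mod_cast hP.deg_pos x
  set a : ℝ := (1 - ε) / (G.degree x : ℝ) with ha
  have ha0 : 0 ≤ a := div_nonneg (by linarith) hd.le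
  have hsum : ∑ y ∈ G.neighborFinset x, (P x y - a) = ε := by
    rw [sum_sub_distrib, hP.sum x, sum_const, SimpleGraph.card_neighborFinset_eq_degree,
      nsmul_eq_mul, ha]
    field_simp
    ring
  have h1 : ENNReal.ofReal ε = ∑ y ∈ G.neighborFinset x, ENNReal.ofReal (P x y - a) := by
    rw [← ENNReal.ofReal_sum_of_nonneg, hsum]
    intro y hy
    have := hP.low x y (by simpa using hy)
    linarith
  rw [h1, sum_mul, ← sum_add_distrib]
  refine sum_le_sum fun y hy => ?_
  have hy' : G.Adj x y := by simpa using hy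
  have h2 : ENNReal.ofReal (P x y) = ENNReal.ofReal a + ENNReal.ofReal (P x y - a) := by
    rw [← ENNReal.ofReal_add ha0 (by have := hP.low x y hy'; linarith)]
    congr 1; ring
  rw [h2, add_mul]
  gcongr
  exact iInf₂_le y hy

/-- The comparison lemma. -/
theorem hit {P : V → V → ℝ} (hP : Adm G ε P) (hε : ε ≤ 1) (U : Finset V) (Φ : V → ℝ)
    (hΦ0 : ∀ x, 0 ≤ Φ x)
    (hΦ : ∀ x, x ∉ U → 1 + ∑ y ∈ G.neighborFinset x, P x y * Φ y ≤ Φ x)
    (S : Finset V) (M : ENNReal)
    (hM : ∀ y ∈ U, val G ε (y, insert y S) ≤ ENNReal.ofReal (Φ y) + M) :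
    ∀ x, x ∉ U → val G ε (x, S) ≤ ENNReal.ofReal (Φ x) + M := by
  classical
  intro x hx
  have := val_le_of G ε (fun p => if p.1 ∉ U ∧ S ⊆ p.2 then ENNReal.ofReal (Φ p.1) + M else ⊤) ?_
    (x, S)
  · simpa [hx] using this
  rintro ⟨z, T⟩
  dsimp only
  split_ifs with h
  swap
  · exact le_top
  refine (bell_le hP hε _ z T).trans ?_
  have h1 : ∀ y ∈ G.neighborFinset z,
      ENNReal.ofReal (P z y) * (val G ε ⊓ fun p : V × Finset V =>
        if p.1 ∉ U ∧ S ⊆ p.2 then ENNReal.ofReal (Φ p.1) + M else ⊤) (y, insert y T)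
      ≤ ENNReal.ofReal (P z y * Φ y) + ENNReal.ofReal (P z y) * M := by
    intro y hy
    have hy' : G.Adj z y := by simpa using hy
    rw [ENNReal.ofReal_mul (hP.nonneg hε hy'), ← mul_add]
    gcongr
    by_cases hyU : y ∈ U
    · refine inf_le_left.trans ?_
      exact (val_mono G ε y (insert_subset_insert y h.2)).trans (hM y hyU)
    · refine inf_le_right.trans ?_
      have : S ⊆ insert y T := h.2.trans (subset_insert y T)
      simp [hyU, this]
  refine (add_le_add le_rfl (sum_le_sum h1)).trans ?_
  have hnn : ∀ y ∈ G.neighborFinset z, 0 ≤ P z y := fun y hy => hP.nonneg hε (by simpa using hy)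
  rw [sum_add_distrib, ← sum_mul, ← ENNReal.ofReal_sum_of_nonneg hnn, hP.sum z,
    ← ENNReal.ofReal_sum_of_nonneg (fun y hy => mul_nonneg (hnn y hy) (hΦ0 y)),
    ENNReal.ofReal_one, one_mul, ← add_assoc]
  gcongr
  rw [← ENNReal.ofReal_one, ← ENNReal.ofReal_add zero_le_one
    (sum_nonneg fun y hy => mul_nonneg (hnn y hy) (hΦ0 y))]
  exact ENNReal.ofReal_le_ofReal (hΦ z h.1)

/-- A greedy policy attains the value. -/
theorem exists_policy (hε0 : 0 ≤ ε) (hε : ε ≤ 1) (hdeg : ∀ x, 0 < G.degree x) (v₀ : V) :
    ∃ f : V → Finset V → V, (∀ u S, G.Adj u (f u S)) ∧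
      coverTime G ε f v₀ ≤ val G ε (v₀, {v₀}) := by
  have hne : ∀ u, (G.neighborFinset u).Nonempty := fun u => by
    rw [← card_pos]; exact hdeg u
  have hex : ∀ u S, ∃ y ∈ G.neighborFinset u, ∀ z ∈ G.neighborFinset u,
      val G ε (y, insert y S) ≤ val G ε (z, insert z S) := fun u S =>
    exists_min_image _ (fun y => val G ε (y, insert y S)) (hne u)
  choose f hf1 hf2 using hex
  refine ⟨f, fun u S => by simpa using hf1 u S, ?_⟩
  have hstep : ∀ r : V × Finset V, (if r.2 = univ then 0 else 1) +
      ∑ q : V × Finset V, step G ε f r q * val G ε q ≤ val G ε r := by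
    rintro ⟨u, S⟩
    have e1 : ∑ q : V × Finset V, step G ε f (u, S) q * val G ε q =
        ∑ y ∈ G.neighborFinset u, ENNReal.ofReal ((1 - ε) / (G.degree u : ℝ) +
          (if y = f u S then ε else 0)) * val G ε (y, insert y S) := by
      rw [Fintype.sum_prod_type, SimpleGraph.neighborFinset_eq_filter, sum_filter]
      refine sum_congr rfl fun y _ => ?_
      rw [sum_eq_single (insert y S)]
      · simp only [step, and_true]
        split_ifs <;> simp
      · intro T _ hT
        simp [step, hT]
      · simp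
    rw [e1]
    by_cases hS : S = univ
    · subst hS
      have : ∀ y : V, insert y (univ : Finset V) = univ := fun y => by simp
      simp [this, val_univ]
    · conv_rhs => rw [← bell_val]
      simp only [bell, OrderHom.coe_mk, if_neg hS]
      rw [add_assoc]
      gcongr
      have ha0 : 0 ≤ (1 - ε) / (G.degree u : ℝ) := div_nonneg (by linarith) (Nat.cast_nonneg _)
      have e2 : ∀ y ∈ G.neighborFinset u, ENNReal.ofReal ((1 - ε) / (G.degree u : ℝ) +
          (if y = f u S then ε else 0)) * val G ε (y, insert y S) =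
          ENNReal.ofReal ((1 - ε) / (G.degree u : ℝ)) * val G ε (y, insert y S) +
            (if y = f u S then ENNReal.ofReal ε * val G ε (y, insert y S) else 0) := by
        intro y _
        split_ifs
        · rw [ENNReal.ofReal_add ha0 hε0, add_mul]
        · simp
      rw [sum_congr rfl e2, sum_add_distrib]
      gcongr
      rw [sum_ite_eq' (G.neighborFinset u) (f u S), if_pos (hf1 u S)]
      gcongr
      exact le_iInf₂ fun z hz => hf2 u S z hz
  have hmain : ∀ T : ℕ, ∑ t ∈ range T, (∑ p : V × Finset V,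
      if p.2 = univ then 0 else law G ε f v₀ t p) +
      ∑ p : V × Finset V, law G ε f v₀ T p * val G ε p ≤ val G ε (v₀, {v₀}) := by
    intro T
    induction T with
    | zero =>
      simp only [range_zero, sum_empty, zero_add, law]
      rw [sum_eq_single (v₀, ({v₀} : Finset V))]
      · simp
      · intro b _ hb; simp [hb]
      · simp
    | succ T ih =>
      refine le_trans ?_ ih
      rw [sum_range_succ, add_assoc]
      gcongr
      simp only [law]
      simp_rw [sum_mul]
      rw [sum_comm, ← sum_add_distrib]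
      refine sum_le_sum fun r _ => ?_
      calc (if r.2 = univ then 0 else law G ε f v₀ T r) +
            ∑ q : V × Finset V, law G ε f v₀ T r * step G ε f r q * val G ε q
          = law G ε f v₀ T r * ((if r.2 = univ then 0 else 1) +
            ∑ q : V × Finset V, step G ε f r q * val G ε q) := by
            rw [mul_add, mul_sum]
            congr 1
            · split_ifs <;> simp
            · exact sum_congr rfl fun q _ => mul_assoc _ _ _
        _ ≤ law G ε f v₀ T r * val G ε r := by gcongr; exact hstep r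
  unfold coverTime
  rw [ENNReal.tsum_eq_iSup_nat]
  exact iSup_le fun T => le_trans le_self_add (hmain T)

end Pool.Agent.H850Z.TB
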